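import Pool.Agent.R902.Cubic

/-!
`∑_{k ≤ (p-1)/2} C(2k,k)^2 U_k(11,1) ≡ 0 (mod p)` when `p` is a square modulo `13`.
-/

namespace Pool.Agent.Results.MP_c87117_nt.LucasSumVanishes

open Finset

/-- the Lucas sequence `U_n(11,1)` -/
def U : ℕ → ℤ
  | 0 => 0
  | 1 => 1
  | n + 2 => 11 * U (n + 1) - U n

theorem U_eq {R : Type*} [CommRing R] (a b : R) (hab : a + b = 11) (hab' : a * b = 1) (n : ℕ) :
    (a - b) * (U n : R) = a ^ n - b ^ n := by
  induction n using Nat.strong_induction_on with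
  | _ n ih =>
    rcases n with _ | _ | n
    · simp [U]
    · simp [U]
    · have h1 := ih (n + 1) (by omega)
      have h0 := ih n (by omega)
      rw [U]
      push_cast
      linear_combination 11 * h1 - h0 + (-(a ^ (n + 1) - b ^ (n + 1))) * hab
        + (a ^ n - b ^ n) * hab'

theorem centralBinom_mod (p : ℕ) [hp : Fact p.Prime] (n : ℕ) (hpn : p = 2 * n + 1) (k : ℕ)
    (hk : k < p) : ((2 * k).choose k : ZMod p) = (n.choose k : ZMod p) * (-4) ^ k := by
  have h2n : 2 * (n : ZMod p) = -1 := by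
    have h1 := congrArg (fun x : ℕ => (x : ZMod p)) hpn
    simp only [Nat.cast_add, Nat.cast_mul, Nat.cast_ofNat, Nat.cast_one, ZMod.natCast_self] at h1
    linear_combination -h1
  induction k with
  | zero => simp
  | succ k ih =>
    have ih := ih (by omega)
    have hne : ((k + 1 : ℕ) : ZMod p) ≠ 0 := by
      rw [Ne, ZMod.natCast_eq_zero_iff]
      exact Nat.not_dvd_of_pos_of_lt (by omega) hk
    have h1 := congrArg (fun x : ℕ => (x : ZMod p)) (Nat.succ_mul_centralBinom_succ k)
    rw [Nat.centralBinom, Nat.centralBinom] at h1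
    have h2 : ((n.choose (k + 1) : ℕ) : ZMod p) * ((k : ZMod p) + 1)
        = (n.choose k : ZMod p) * ((n : ZMod p) - k) := by
      have h3 := Nat.choose_succ_right_eq n k
      rcases Nat.lt_or_ge n k with h | h
      · rw [Nat.choose_eq_zero_of_lt (by omega : n < k + 1), Nat.choose_eq_zero_of_lt h]
        simp
      · have h4 := congrArg (fun x : ℕ => (x : ZMod p)) h3
        simp only [Nat.cast_mul] at h4
        rw [Nat.cast_sub h] at h4
        push_cast at h4
        exact h4
    apply mul_left_cancel₀ hne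
    push_cast at h1 ⊢
    rw [ih] at h1
    rw [pow_succ]
    linear_combination h1 + (4 * (-4 : ZMod p) ^ k) * h2 +
      (2 * (n.choose k : ZMod p) * (-4) ^ k) * h2n

theorem result (p : ℕ) (hp : p.Prime) (h3 : 3 < p)
    (h13 : p % 13 = 1 ∨ p % 13 = 3 ∨ p % 13 = 4 ∨ p % 13 = 9 ∨ p % 13 = 10 ∨ p % 13 = 12) :
    (p : ℤ) ∣ ∑ k ∈ range ((p - 1) / 2 + 1), ((2 * k).choose k : ℤ) ^ 2 * U k := by
  have hsq : IsSquare ((p : ℕ) : ZMod 13) := by
    have e : ((p : ℕ) : ZMod 13) = ((p % 13 : ℕ) : ZMod 13) := by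
      rw [ZMod.natCast_mod]
    rw [e]
    rcases h13 with h | h | h | h | h | h <;> rw [h] <;> decide
  have : Fact p.Prime := ⟨hp⟩
  have : Fact (Nat.Prime 13) := ⟨by norm_num⟩
  obtain ⟨n, hn⟩ : ∃ n, p = 2 * n + 1 := by
    rcases hp.eq_two_or_odd' with h | h
    · omega
    · exact h
  have hsq' : IsSquare ((13 : ℕ) : ZMod p) :=
    (ZMod.exists_sq_eq_prime_iff_of_mod_four_eq_one (p := 13) (q := p) (by norm_num)
      (by omega)).1 hsq
  obtain ⟨s, hs⟩ := hsq'
  have hs2 : s ^ 2 = 13 := by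
    rw [sq, ← hs]
    push_cast
    rfl
  have h5 : 5 ≤ p := by
    rcases Nat.lt_or_ge p 5 with h | h
    · obtain rfl : p = 4 := by omega
      exact absurd hp (by norm_num)
    · exact h
  have main := Pool.Agent.R902.Cubic.special p n hn h5 s hs2
  have h2 : (2 : ZMod p) ≠ 0 := by
    have : ((2 : ℕ) : ZMod p) ≠ 0 := by
      rw [Ne, ZMod.natCast_eq_zero_iff]
      intro h
      have := Nat.le_of_dvd (by norm_num) h
      omega
    simpa using this
  have h3' : (3 : ZMod p) ≠ 0 := by
    have : ((3 : ℕ) : ZMod p) ≠ 0 := by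
      rw [Ne, ZMod.natCast_eq_zero_iff]
      intro h
      have := Nat.le_of_dvd (by norm_num) h
      omega
    simpa using this
  have hs0 : s ≠ 0 := by
    intro h
    rw [h] at hs2
    have h130 : ((13 : ℕ) : ZMod p) = 0 := by
      push_cast
      linear_combination -hs2
    rw [ZMod.natCast_eq_zero_iff] at h130
    have := (Nat.prime_dvd_prime_iff_eq hp (by norm_num : Nat.Prime 13)).1 h130
    omega
  have h22 : (2 : ZMod p) * 2⁻¹ = 1 := mul_inv_cancel₀ h2
  set a : ZMod p := (11 + 3 * s) * 2⁻¹ with ha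
  set b : ZMod p := (11 - 3 * s) * 2⁻¹ with hb
  have hab : a + b = 11 := by rw [ha, hb]; linear_combination 11 * h22
  have hab' : a * b = 1 := by
    rw [ha, hb]
    linear_combination (-9 * 2⁻¹ * 2⁻¹) * hs2 + (2 * 2⁻¹ + 1) * h22
  have e1 : (88 + 24 * s : ZMod p) = 16 * a := by rw [ha]; linear_combination (-(88 + 24 * s)) * h22
  have e2 : (88 - 24 * s : ZMod p) = 16 * b := by rw [hb]; linear_combination (-(88 - 24 * s)) * h22
  rw [e1, e2] at main
  have hdiff : a - b = 3 * s := by rw [ha, hb]; linear_combination (3 * s) * h22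
  rw [← ZMod.intCast_zmod_eq_zero_iff_dvd]
  push_cast
  have e3 : (p - 1) / 2 = n := by omega
  rw [e3]
  have key : (a - b) * ∑ k ∈ range (n + 1), ((2 * k).choose k : ZMod p) ^ 2 * (U k : ZMod p)
      = 0 := by
    rw [Finset.mul_sum]
    have h : ∀ k ∈ range (n + 1), (a - b) * (((2 * k).choose k : ZMod p) ^ 2 * (U k : ZMod p))
        = Pool.Agent.R902.Cubic.c p n k * (16 * a) ^ k
          - Pool.Agent.R902.Cubic.c p n k * (16 * b) ^ k := by
      intro k hk
      have hk := Finset.mem_range.1 hk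
      have hU := U_eq a b hab hab' k
      have h16 : ((n.choose k : ZMod p) * (-4) ^ k) ^ 2 = (n.choose k : ZMod p) ^ 2 * 16 ^ k := by
        rw [mul_pow, ← pow_mul, mul_comm k 2, pow_mul]
        norm_num
      rw [centralBinom_mod p n hn k (by omega), Pool.Agent.R902.Cubic.c, h16, mul_pow 16 a k,
        mul_pow 16 b k]
      linear_combination ((n.choose k : ZMod p) ^ 2 * 16 ^ k) * hU
    rw [Finset.sum_congr rfl h, Finset.sum_sub_distrib, main, sub_self]
  rw [hdiff] at key
  exact (mul_eq_zero.1 key).resolve_left (mul_ne_zero h3' hs0)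

end Pool.Agent.Results.MP_c87117_nt.LucasSumVanishes
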